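import Mathlib

/-! # Restriction of scalars for systems of equations -/

set_option autoImplicit false

namespace Pool.Agent.V8H32.CV
open Finset MvPolynomial
open scoped Classical

variable {s R : Type} [CommRing R] {m : ℕ}

/-- the coefficients in `R` are replaced by polynomials with integral coefficients -/
noncomputable def psi (π : MvPolynomial (Fin m) ℤ →+* R) : MvPolynomial (s ⊕ Fin m) ℤ →+* MvPolynomial s R :=
  eval₂Hom (Int.castRingHom _) (Sum.elim X (fun j => C (π (X j))))

lemma psi_inr (π : MvPolynomial (Fin m) ℤ →+* R) (g : MvPolynomial (Fin m) ℤ) :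
    psi (s := s) π (rename Sum.inr g) = C (π g) := by
  have h : (psi (s := s) π).comp (rename Sum.inr : MvPolynomial (Fin m) ℤ →ₐ[ℤ] _).toRingHom =
      (C : R →+* MvPolynomial s R).comp π := by
    apply MvPolynomial.ringHom_ext
    · intro r
      simp [psi]
    · intro i
      simp [psi]
  exact DFunLike.congr_fun h g

lemma psi_surj (π : MvPolynomial (Fin m) ℤ →+* R) (hπ : Function.Surjective π) :
    Function.Surjective (psi (s := s) π) := by
  intro p
  induction p using MvPolynomial.induction_on with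
  | C r =>
    obtain ⟨g, rfl⟩ := hπ r
    exact ⟨_, psi_inr π g⟩
  | add p q hp hq =>
    obtain ⟨a, rfl⟩ := hp
    obtain ⟨b, rfl⟩ := hq
    exact ⟨a + b, map_add _ _ _⟩
  | mul_X p i hp =>
    obtain ⟨a, rfl⟩ := hp
    refine ⟨a * X (Sum.inl i), ?_⟩
    rw [map_mul]
    simp [psi]

variable {κ : Type} [Field κ]

lemma eval_psi (π : MvPolynomial (Fin m) ℤ →+* R) (φ : R →+* κ) (x : s → κ)
    (P : MvPolynomial (s ⊕ Fin m) ℤ) :
    eval₂ φ x (psi π P) = eval₂ (Int.castRingHom κ) (Sum.elim x (fun j => φ (π (X j)))) P := by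
  have h : (eval₂Hom φ x).comp (psi π) =
      eval₂Hom (Int.castRingHom κ) (Sum.elim x (fun j => φ (π (X j)))) := by
    apply MvPolynomial.ringHom_ext
    · intro r
      simp [psi]
    · intro i
      rcases i with i | i <;> simp [psi]
  exact DFunLike.congr_fun h P

lemma eval_phi (π : MvPolynomial (Fin m) ℤ →+* R) (φ : R →+* κ) (g : MvPolynomial (Fin m) ℤ) :
    eval₂ (Int.castRingHom κ) (fun j => φ (π (X j))) g = φ (π g) := by
  have h : eval₂Hom (Int.castRingHom κ) (fun j => φ (π (X j))) = φ.comp π := by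
    apply MvPolynomial.ringHom_ext
    · intro r
      simp
    · intro i
      simp
  exact DFunLike.congr_fun h g

theorem restrict [Algebra.FiniteType ℤ R] (X0 : Finset (MvPolynomial s R)) :
    ∃ (m : ℕ) (X1 : Finset (MvPolynomial (s ⊕ Fin m) ℤ)), ∀ (κ : Type) [Field κ] [Finite κ],
      Nat.card {z : s ⊕ Fin m → κ // ∀ f ∈ X1, eval₂ (Int.castRingHom κ) z f = 0} =
        Nat.card (Σ φ : R →+* κ, {x : s → κ // ∀ f ∈ X0, eval₂ φ x f = 0}) := by
  obtain ⟨m, π', hπ'⟩ := (Algebra.FiniteType.iff_quotient_mvPolynomial'' (R := ℤ) (S := R)).1 inferInstance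
  obtain ⟨π, hπd⟩ : ∃ π : MvPolynomial (Fin m) ℤ →+* R, π = π'.toRingHom := ⟨_, rfl⟩
  have hπ : Function.Surjective π := by rw [hπd]; exact hπ'
  obtain ⟨G, hG⟩ : ∃ G : Finset (MvPolynomial (Fin m) ℤ), Ideal.span (G : Set _) = RingHom.ker π :=
    IsNoetherian.noetherian (RingHom.ker π)
  choose L hL using psi_surj (s := s) π hπ
  refine ⟨m, G.image (rename Sum.inr) ∪ X0.image L, ?_⟩
  intro κ _ _
  symm
  have key : ∀ (φ : R →+* κ) (x : s → κ), (∀ f ∈ X0, eval₂ φ x f = 0) →
      ∀ f ∈ G.image (rename Sum.inr) ∪ X0.image L,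
        eval₂ (Int.castRingHom κ) (Sum.elim x (fun j => φ (π (X j)))) f = 0 := by
    intro φ x hx f hf
    rcases mem_union.1 hf with hf | hf
    · obtain ⟨g, hg, rfl⟩ := mem_image.1 hf
      rw [eval₂_rename]
      have h1 : Sum.elim x (fun j => φ (π (X j))) ∘ Sum.inr = fun j => φ (π (X j)) := by
        funext j; rfl
      rw [h1, eval_phi]
      have h2 : g ∈ RingHom.ker π := by
        rw [← hG]; exact Ideal.subset_span hg
      rw [(RingHom.mem_ker).1 h2, map_zero]
    · obtain ⟨g, hg, rfl⟩ := mem_image.1 hf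
      rw [← eval_psi, hL]
      exact hx g hg
  set Φ : (Σ φ : R →+* κ, {x : s → κ // ∀ f ∈ X0, eval₂ φ x f = 0}) →
      {z : s ⊕ Fin m → κ // ∀ f ∈ G.image (rename Sum.inr) ∪ X0.image L,
        eval₂ (Int.castRingHom κ) z f = 0} :=
    fun p => ⟨Sum.elim p.2.1 (fun j => p.1 (π (X j))), key p.1 p.2.1 p.2.2⟩ with hΦ
  apply Nat.card_congr
  apply Equiv.ofBijective Φ
  constructor
  · rintro ⟨φ, x, hx⟩ ⟨φ', x', hx'⟩ h
    have h0 : Sum.elim x (fun j => φ (π (X j))) = Sum.elim x' (fun j => φ' (π (X j))) :=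
      congrArg Subtype.val h
    have h1 : x = x' := by
      funext i
      exact congrFun h0 (Sum.inl i)
    have h2 : φ = φ' := by
      ext r
      obtain ⟨g, rfl⟩ := hπ r
      rw [← eval_phi, ← eval_phi]
      congr 1
      funext j
      exact congrFun h0 (Sum.inr j)
    subst h1
    subst h2
    rfl
  · rintro ⟨z, hz⟩
    have h1 : RingHom.ker π ≤ RingHom.ker (eval₂Hom (Int.castRingHom κ) (z ∘ Sum.inr)) := by
      rw [← hG, Ideal.span_le]
      intro g hg
      have := hz (rename Sum.inr g) (mem_union_left _ (mem_image_of_mem _ hg))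
      rw [eval₂_rename] at this
      exact this
    set φ : R →+* κ := π.liftOfSurjective hπ ⟨_, h1⟩ with hφ
    have h2 : ∀ g, φ (π g) = eval₂ (Int.castRingHom κ) (z ∘ Sum.inr) g := by
      intro g
      exact RingHom.liftOfRightInverse_comp_apply π _ _ ⟨_, h1⟩ g
    have h3 : Sum.elim (z ∘ Sum.inl) (fun j => φ (π (X j))) = z := by
      funext i
      rcases i with i | i
      · rfl
      · change φ (π (X i)) = _
        rw [h2, eval₂_X]
        rfl
    refine ⟨⟨φ, z ∘ Sum.inl, ?_⟩, ?_⟩
    · intro f hf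
      have := hz (L f) (mem_union_right _ (mem_image_of_mem _ hf))
      rw [← h3, ← eval_psi, hL] at this
      exact this
    · apply Subtype.ext
      exact h3

/-- a finitely generated ring has only finitely many homomorphisms to a finite field -/
theorem finite_homs (R : Type) [CommRing R] [Algebra.FiniteType ℤ R] (κ : Type) [Field κ] [Finite κ] :
    Finite (R →+* κ) := by
  obtain ⟨m, π', hπ'⟩ := (Algebra.FiniteType.iff_quotient_mvPolynomial'' (R := ℤ) (S := R)).1 inferInstance
  apply Finite.of_injective (fun (φ : R →+* κ) (j : Fin m) => φ (π'.toRingHom (X j)))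
  intro φ φ' h
  ext r
  obtain ⟨g, rfl⟩ := hπ' r
  have h1 := eval_phi π'.toRingHom φ g
  have h2 := eval_phi π'.toRingHom φ' g
  change φ (π'.toRingHom g) = φ' (π'.toRingHom g)
  rw [← h1, ← h2]
  exact congrArg (fun t => eval₂ (Int.castRingHom κ) t g) h

end Pool.Agent.V8H32.CV
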