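import Pool.Agent.V8H32.CV.Norm
import Pool.Agent.V8H32.CV.Res

/-! # The smooth affine cubic hypersurface over the integers of a projective variety -/

set_option autoImplicit false

namespace Pool.Agent.V8H32.CV
open Finset MvPolynomial
open Pool.Agent.V8H32.CU
open Pool.Agent.TH958.BV (cone)
open scoped Classical

/-- the hypersurface with the sign `-` -/
theorem smooth_cubic_neg {R : Type} [CommRing R] [Algebra.FiniteType ℤ R] (n d : ℕ)
    (X : Set (MvPolynomial (Fin (n + 1)) R)) (hom : ∀ f ∈ X, ∃ k, f.IsHomogeneous k) :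
    ∃ (M a T : ℕ) (F : MvPolynomial (Fin M) ℤ), 0 < M ∧ d < T ∧ F.totalDegree ≤ 3 ∧
      (∀ m, coeff m F = 0 ∨ coeff m F = 1 ∨ coeff m F = -1) ∧ SmoothOne F ∧
      ∀ (κ : Type) [Field κ] [Finite κ] [Fintype (R →+* κ)],
        ((Nat.card κ : ℤ) - 1) * onePts F (Int.castRingHom κ) = (Nat.card κ : ℤ) ^ a *
          (((Nat.card κ : ℤ) - 1) * (Nat.card κ : ℤ) ^ T - ∑ φ : R →+* κ, (cone X φ : ℤ)) := by
  have : IsNoetherianRing R := Algebra.FiniteType.isNoetherianRing ℤ R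
  obtain ⟨X1, hX1, hspan⟩ : ∃ X1 : Finset (MvPolynomial (Fin (n + 1)) R), (X1 : Set _) ⊆ X ∧
      Ideal.span (X1 : Set (MvPolynomial (Fin (n + 1)) R)) = Ideal.span X := by
    have h1 : (Submodule.span (MvPolynomial (Fin (n + 1)) R) X).FG := IsNoetherian.noetherian _
    obtain ⟨s, hs1, hs2⟩ := (Submodule.fg_span_iff_fg_span_finset_subset X).1 h1
    exact ⟨s, hs1, hs2.symm⟩
  obtain ⟨m, X2, hX2⟩ := restrict (sysN X1)
  obtain ⟨M, a, T, F, h0, h1, h2, h3, h4, h5⟩ := cubic_of_system (Sum.inl (Sum.inl 0)) X2 d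
  refine ⟨M, a, T, F, h0, h1, h2, h3, h4, ?_⟩
  intro κ _ _ _
  rw [h5 κ, hX2 κ]
  have : ∀ φ : R →+* κ, Finite {x : Sg (n + 1) → κ // ∀ f ∈ sysN X1, eval₂ φ x f = 0} :=
    fun _ => inferInstance
  let _ : ∀ φ : R →+* κ, Fintype {x : Sg (n + 1) → κ // ∀ f ∈ sysN X1, eval₂ φ x f = 0} :=
    fun _ => Fintype.ofFinite _
  have h6 : Nat.card (Σ φ : R →+* κ, {x : Sg (n + 1) → κ // ∀ f ∈ sysN X1, eval₂ φ x f = 0}) =
      ∑ φ : R →+* κ, Nat.card {x : Sg (n + 1) → κ // ∀ f ∈ sysN X1, eval₂ φ x f = 0} := by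
    rw [Nat.card_sigma]
  rw [h6]
  have hq : 1 < Nat.card κ := Finite.one_lt_card
  have hq1 : ((Nat.card κ - 1 : ℕ) : ℤ) = (Nat.card κ : ℤ) - 1 := by
    push_cast [Nat.cast_sub hq.le]; ring
  have h7 : ∀ φ : R →+* κ, (cone X φ : ℤ) = ((Nat.card κ : ℤ) - 1) *
      Nat.card {x : Sg (n + 1) → κ // ∀ f ∈ sysN X1, eval₂ φ x f = 0} := by
    intro φ
    have h8 := norm_count φ X1 (fun f hf => hom f (hX1 hf))
    rw [cone_congr φ hspan] at h8
    have h9 := congrArg (Nat.cast : ℕ → ℤ) h8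
    push_cast [hq1] at h9
    rw [h9]
  rw [Finset.sum_congr rfl (fun φ _ => h7 φ), ← Finset.mul_sum]
  push_cast
  ring

/-- **the smooth affine cubic hypersurface**: both signs -/
theorem smooth_cubic {R : Type} [CommRing R] [Algebra.FiniteType ℤ R] (n d : ℕ) {ε : ℤ}
    (hε : ε = 1 ∨ ε = -1)
    (X : Set (MvPolynomial (Fin (n + 1)) R)) (hom : ∀ f ∈ X, ∃ k, f.IsHomogeneous k) :
    ∃ (M a A B : ℕ) (m : ℤ) (F : MvPolynomial (Fin M) ℤ), a + d < A ∧ a + d < B ∧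
      F.totalDegree ≤ 3 ∧ (∀ m, coeff m F = 0 ∨ coeff m F = 1 ∨ coeff m F = -1) ∧ SmoothOne F ∧
      ∀ (κ : Type) [Field κ] [Finite κ] [Fintype (R →+* κ)],
        ((Nat.card κ : ℤ) - 1) * onePts F (Int.castRingHom κ) =
          ((Nat.card κ : ℤ) - 1) * ((Nat.card κ : ℤ) ^ A + m * (Nat.card κ : ℤ) ^ B) +
            ε * (Nat.card κ : ℤ) ^ a * ∑ φ : R →+* κ, (cone X φ : ℤ) := by
  obtain ⟨M, a, T, F, hM, h1, h2, h3, h4, h5⟩ := smooth_cubic_neg n d X hom
  rcases hε with rfl | rfl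
  · -- apply the construction once more, to the hypersurface
    obtain ⟨M', a', T', F', -, h1', h2', h3', h4', h5'⟩ :=
      cubic_of_system (⟨0, hM⟩ : Fin M) {F - 1} (d + a + T)
    refine ⟨M', a' + a, a' + T', a' + (a + T), -1, F', by omega, by omega, h2', h3', h4', ?_⟩
    intro κ _ _ _
    have h6 : Nat.card {x : Fin M → κ // ∀ f ∈ ({F - 1} : Finset (MvPolynomial (Fin M) ℤ)),
        eval₂ (Int.castRingHom κ) x f = 0} = onePts F (Int.castRingHom κ) := by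
      unfold onePts
      apply Nat.card_congr
      apply Equiv.subtypeEquivRight
      intro x
      simp only [Finset.mem_singleton, forall_eq]
      rw [eval₂_sub, eval₂_one, sub_eq_zero]
    rw [h5' κ, h6]
    have h7 := h5 κ
    linear_combination (-(Nat.card κ : ℤ) ^ a') * h7
  · refine ⟨M, a, a + T, a + T, 0, F, by omega, by omega, h2, h3, h4, ?_⟩
    intro κ _ _ _
    rw [h5 κ]
    ring

end Pool.Agent.V8H32.CV
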