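import Pool.Agent.V8H32.CU.Defs

/-! # From a number field to the rational numbers: definitions -/

set_option autoImplicit false

namespace Pool.Agent.V8H32.CV
open NumberField IsDedekindDomain
open Pool.Agent.V8H32.CF (nv lf wpart LW Bdd)

variable {K : Type} [Field K] [NumberField K]

/-- the prime of `ℚ` below `v` -/
noncomputable def dn (v : HeightOneSpectrum (𝓞 K)) : HeightOneSpectrum (𝓞 ℚ) :=
  HeightOneSpectrum.under (𝓞 ℚ) v

/-- the residue degree -/
noncomputable def fd (v : HeightOneSpectrum (𝓞 K)) : ℕ := Nat.log (nv (dn v)) (nv v)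

/-- the `f`-th roots of `z` -/
noncomputable def rt (f : ℕ) (z : ℂ) : Finset ℂ := by
  classical exact (Polynomial.nthRoots f z).toFinset

/-- the induced divisor: `z` is replaced by its `f`-th roots -/
noncomputable def ind (f : ℕ) (c : ℂ →₀ ℤ) : ℂ →₀ ℤ :=
  c.sum fun z m => ∑ y ∈ rt f z, Finsupp.single y m

end Pool.Agent.V8H32.CV
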