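import Pool.Agent.V8H32.CV.Defs
import Mathlib.NumberTheory.Padics.HeightOneSpectrum

/-!
# The L-functions of projective varieties over number fields and of affine hypersurfaces over `ℤ`
-/

set_option autoImplicit false

namespace Pool.Agent.V8H32.CV
open NumberField IsDedekindDomain
open Pool.Agent.V8H32.CF (nv lf wpart LW Bdd)
open Pool.Agent.V8H32.CU (HasWeights onePts SmoothOne)

variable {K : Type} [Field K] [NumberField K]

/-- `v` lies above a prime number in `S` -/
def Above (S : Finset Nat.Primes) (v : HeightOneSpectrum (𝓞 K)) : Prop := ∃ p ∈ S, (p : ℕ) ∣ nv v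

open Classical in
/-- `L_S(H^i(X), s)`: the product, over the primes `v` of `K` not above `S`, of
`∏_j (1 - α_{v,i,j} q_v^{-s})⁻¹` -/
noncomputable def LHp (S : Finset Nat.Primes) {N : ℕ → ℕ}
    (α : HeightOneSpectrum (𝓞 K) → ∀ k, Fin (N k) → ℂ) (i : ℕ) (s : ℂ) : ℂ :=
  ∏' v : HeightOneSpectrum (𝓞 K), if Above S v then 1 else
    ∏ j, (1 - α v i j * (nv v : ℂ) ^ (-s))⁻¹

/-- `c` is the Frobenius divisor at the prime number `p` of the affine hypersurface `F = 1`: the number of
its points over the field with `p^e` elements is `∑_z c(z) z^e`, and every `z` with `c(z) ≠ 0` has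
a weight `w ≥ 0`, that is `|z| = p^{w/2}`. -/
def IsDiv {M : ℕ} (F : MvPolynomial (Fin M) ℤ) (p : ℕ) (c : ℂ →₀ ℤ) : Prop :=
  HasWeights p c ∧ ∀ (κ : Type) [Field κ] [Finite κ] (e : ℕ), Nat.card κ = p ^ e →
      (onePts F (Int.castRingHom κ) : ℂ) = c.sum (fun z m => (m : ℂ) * z ^ e)

open Classical in
/-- The part of weight `w` of the zeta function: the product over the prime numbers `p ∉ S` and the `z` of
weight `w` of the factors `(1 - z p^{-s})^{-c_p(z)}`. -/
noncomputable def LWp (S : Finset Nat.Primes) (c : Nat.Primes → ℂ →₀ ℤ) (w : ℕ) (s : ℂ) : ℂ :=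
  ∏' p : Nat.Primes, if p ∈ S then 1 else lf (wpart (p : ℕ) w (c p)) (((p : ℕ) : ℂ) ^ (-s))

/-- `∑_z |c_p(z)|` is bounded for `p ∉ S`. -/
def Bdp (S : Finset Nat.Primes) (c : Nat.Primes → ℂ →₀ ℤ) : Prop :=
  ∃ B : ℕ, ∀ p, p ∉ S → (c p).sum (fun _ m => m.natAbs) ≤ B

end Pool.Agent.V8H32.CV
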