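import Pool.Agent.V8H32.CV.Reg
import Pool.Agent.V8H32.CV.Cub
import Pool.Agent.V8H32.CV.Defs2

/-! # The Frobenius divisor of the hypersurface over the integers, and the identity -/

set_option autoImplicit false

namespace Pool.Agent.V8H32.CV
open Finset NumberField IsDedekindDomain
open Pool.Agent.TH958.BV (cone)
open Pool.Agent.V8H25.CF
open Pool.Agent.V8H25.CV
open Pool.Agent.V8H32.CF (nv lf wpart LW Bdd)
open Pool.Agent.V8H32.CU
open Pool.Agent.V8H35.CV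
open scoped Classical

variable {K : Type} [Field K] [NumberField K]

lemma HasWeights.ne_zero' {Q : ℕ} (hQ : 0 < Q) {c : ℂ →₀ ℤ} (h : HasWeights Q c) :
    ∀ z ∈ c.support, z ≠ 0 := by
  intro z hz h0
  obtain ⟨w, hw⟩ := h z hz
  rw [h0, norm_zero] at hw
  have : (0 : ℝ) < (Q : ℝ) ^ ((w : ℝ) / 2) := Real.rpow_pos_of_pos (by exact_mod_cast hQ) _
  linarith

lemma cX_weights {N : ℕ → ℕ} {d : ℕ} {Q : ℕ} {α : ∀ k, Fin (N k) → ℂ}
    (hα : ∀ k j, ‖α k j‖ = (Q : ℝ) ^ ((k : ℝ) / 2)) : HasWeights Q (cX d α) := by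
  apply HasWeights.sum
  intro k _
  apply HasWeights.smul
  intro z hz
  exact ⟨k, cK_weight hα k z hz⟩

/-- the divisor of the hypersurface -/
noncomputable def cW (Q : ℂ) (ε : ℤ) (a A B : ℕ) (m : ℤ) (c : ℂ →₀ ℤ) : ℂ →₀ ℤ :=
  ε • sh Q a c + (sh Q A (Finsupp.single 1 1) + sh Q B (Finsupp.single 1 m))

lemma cW_weights {Q : ℕ} (hQ : 0 < Q) {c : ℂ →₀ ℤ} (h : HasWeights Q c) (ε : ℤ) (a A B : ℕ) (m : ℤ) :
    HasWeights Q (cW Q ε a A B m c) :=
  ((h.sh hQ _).smul _).add (((HasWeights.single Q _).sh hQ _).add ((HasWeights.single Q _).sh hQ _))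

lemma ps_cW {Q : ℂ} (hQ : Q ≠ 0) (ε : ℤ) (a A B : ℕ) (m : ℤ) (c : ℂ →₀ ℤ) (e : ℕ) :
    (cW Q ε a A B m c).sum (fun z m => (m : ℂ) * z ^ e) =
      ε * (Q ^ e) ^ a * c.sum (fun z m => (m : ℂ) * z ^ e) + ((Q ^ e) ^ A + m * (Q ^ e) ^ B) := by
  unfold cW
  rw [ps_add, ps_add, ps_smul, sh_powerSum hQ, sh_powerSum hQ, sh_powerSum hQ,
    Finsupp.sum_single_index (by simp), Finsupp.sum_single_index (by simp)]
  push_cast
  simp only [one_pow, mul_one]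
  ring

lemma cW_bdd {S : Finset (HeightOneSpectrum (𝓞 K))} {c : HeightOneSpectrum (𝓞 K) → ℂ →₀ ℤ}
    (hB : Bdd S c) (ε : ℤ) (a A B : ℕ) (m : ℤ) : Bdd S (fun v => cW (nv v) ε a A B m (c v)) :=
  bdd_add (bdd_zsmul (bdd_sh hB _) _) (bdd_add (bdd_sh (bdd_const S _) _) (bdd_sh (bdd_const S _) _))

/-- the divisor of the hypersurface `F = 1` at the prime `p` -/
theorem isDiv {n M a A B d : ℕ} {ε m : ℤ} {X : Set (MvPolynomial (Fin n) (𝓞 K))}
    {F : MvPolynomial (Fin M) ℤ}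
    (hF : ∀ (κ : Type) [Field κ] [Finite κ] [Fintype (𝓞 K →+* κ)],
        ((Nat.card κ : ℤ) - 1) * onePts F (Int.castRingHom κ) =
          ((Nat.card κ : ℤ) - 1) * ((Nat.card κ : ℤ) ^ A + m * (Nat.card κ : ℤ) ^ B) +
            ε * (Nat.card κ : ℤ) ^ a * ∑ φ : 𝓞 K →+* κ, (cone X φ : ℤ))
    {p : HeightOneSpectrum (𝓞 ℚ)} {N : ℕ → ℕ} {α : HeightOneSpectrum (𝓞 K) → ∀ k, Fin (N k) → ℂ}
    (hα : ∀ v, dn v = p → IsFrob X d N v (α v)) :
    IsDiv F (nv p) (cW (nv p) ε a A B m (cQ (fun v => cX d (α v)) p)) := by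
  let _ := Fintype.ofFinite {v : HeightOneSpectrum (𝓞 K) // dn v = p}
  have e1 : cQ (fun v => cX d (α v)) p =
      ∑ v : {v : HeightOneSpectrum (𝓞 K) // dn v = p}, ind (fd v.1) (cX d (α v.1)) := cQ_eq _ _
  have e2 : ∀ v : {v : HeightOneSpectrum (𝓞 K) // dn v = p}, nv v.1 = nv p ^ fd v.1 := by
    intro v
    have := nv_eq_pow v.1
    rw [v.2] at this
    exact this
  have hw : HasWeights (nv p) (cQ (fun v => cX d (α v)) p) := by
    rw [e1]
    apply HasWeights.sum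
    intro v _
    apply hasWeights_ind (fd_pos v.1)
    rw [← e2 v]
    exact cX_weights (hα v.1 v.2).1
  refine ⟨cW_weights (nv_pos p) hw ε a A B m, ?_⟩
  intro κ _ _ e hcard
  have : Finite (𝓞 K →+* κ) := finite_homs (𝓞 K) κ
  let _ := Fintype.ofFinite (𝓞 K →+* κ)
  have h1 := congrArg (Int.cast : ℤ → ℂ) (hF κ)
  have h2 : ∑ φ : 𝓞 K →+* κ, (cone X φ : ℂ) =
      ((nv p : ℂ) ^ e - 1) * (cQ (fun v => cX d (α v)) p).sum (fun z m => (m : ℂ) * z ^ e) := by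
    rw [sum_homs p κ e hcard (fun φ => (cone X φ : ℂ)) (fun v => ((nv p : ℂ) ^ e - 1) *
      (cX d (α v)).sum (fun z m => (m : ℂ) * z ^ (e / fd v))), e1, ps_sum, Finset.mul_sum]
    · apply Finset.sum_congr rfl
      intro v _
      rw [ind_powerSum (fd_pos v.1) (HasWeights.ne_zero' (nv_pos v.1) (cX_weights (hα v.1 v.2).1))]
      split_ifs
      · ring
      · ring
    · intro v φ hv hφ
      have h3 : fd v ∣ e := by
        by_contra hcon
        have h4 := card_homs p hcard v hv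
        rw [if_neg hcon] at h4
        have : Finite {φ : 𝓞 K →+* κ // RingHom.ker φ = v.asIdeal} := inferInstance
        rw [Nat.card_eq_zero] at h4
        rcases h4 with h4 | h4
        · exact h4.elim ⟨φ, hφ⟩
        · exact absurd this (not_finite_iff_infinite.2 h4)
      have h5 : Nat.card κ = nv v ^ (e / fd v) := by
        rw [hcard, e2 ⟨v, hv⟩, ← pow_mul, Nat.mul_div_cancel' h3]
      have h6 := (IsFrob.divisor (hα v hv)).2 κ φ (e / fd v) hφ h5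
      have h7 : (nv v : ℂ) ^ (e / fd v) = (nv p : ℂ) ^ e := by
        have h8 : (nv v : ℕ) ^ (e / fd v) = (nv p : ℕ) ^ e := by rw [← h5, hcard]
        exact_mod_cast h8
      rw [h6, h7]
  have hq : 1 < Nat.card κ := Finite.one_lt_card
  have hq' : ((nv p : ℂ) ^ e - 1) ≠ 0 := by
    rw [sub_ne_zero]
    have h3 : nv p ^ e ≠ 1 := by rw [← hcard]; omega
    exact_mod_cast h3
  rw [hcard] at h1
  push_cast at h1
  rw [ps_cW (nv_ne_zero p)]
  apply mul_left_cancel₀ hq'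
  rw [h1, h2]
  ring

/-- the weight parts of the hypersurface -/
theorem LW_cW {S : Finset (HeightOneSpectrum (𝓞 K))} {c : HeightOneSpectrum (𝓞 K) → ℂ →₀ ℤ}
    (hB : Bdd S c) (ε : ℤ) {a A B i : ℕ} (m : ℤ) (hA : i + 2 * a < 2 * A) (hB' : i + 2 * a < 2 * B)
    {s : ℂ} (hs : (i : ℝ) / 2 + 1 < s.re) :
    LW S (fun v => cW (nv v) ε a A B m (c v)) (i + 2 * a) (s + a) = LW S c i s ^ ε := by
  have hre : (((i + 2 * a : ℕ) : ℝ)) / 2 + 1 < (s + (a : ℂ)).re := by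
    rw [Complex.add_re, Complex.natCast_re]
    push_cast
    linarith
  unfold cW
  rw [LW_add (bdd_zsmul (bdd_sh hB _) _) (bdd_add (bdd_sh (bdd_const S _) _)
    (bdd_sh (bdd_const S _) _)) hre, LW_add (bdd_sh (bdd_const S _) _) (bdd_sh (bdd_const S _) _) hre,
    LW_zsmul _ (bdd_sh hB _) hre, LW_sh,
    LW_sh_small hA (fun v _ => HasWeights.single (nv v) _),
    LW_sh_small hB' (fun v _ => HasWeights.single (nv v) _), mul_one, mul_one]

/-- **the identity** over `ℚ` -/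
theorem identityQ {S' : Finset (HeightOneSpectrum (𝓞 ℚ))} {S : Finset (HeightOneSpectrum (𝓞 K))}
    (hS : ∀ v, v ∈ S ↔ dn v ∈ S') {N : ℕ → ℕ}
    {α : HeightOneSpectrum (𝓞 K) → ∀ k, Fin (N k) → ℂ}
    (hα : ∀ v, v ∉ S → ∀ k j, ‖α v k j‖ = (nv v : ℝ) ^ ((k : ℝ) / 2)) {ε : ℤ} (hε : ε = 1 ∨ ε = -1)
    {a A B d i : ℕ} (m : ℤ) (hA : a + d < A) (hB : a + d < B)
    (hi : i ≤ 2 * d) {s : ℂ} (hs : (i : ℝ) / 2 + 1 < s.re) :
    LH S α i s = LW S' (fun p => cW (nv p) ε a A B m (cQ (fun v => cX d (α v)) p)) (i + 2 * a)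
      (s + a) ^ (ε * (-1 : ℤ) ^ i) := by
  have hBd := cX_bdd S d α
  obtain ⟨C, hC⟩ := cX_bdd (∅ : Finset (HeightOneSpectrum (𝓞 K))) d α
  have hBQ : Bdd S' (cQ (fun v => cX d (α v))) :=
    cQ_bdd (B := C) (fun v _ => hC v (Finset.notMem_empty v))
  rw [LW_cW hBQ ε m (by omega) (by omega) hs, regroup hS hBd (fun v hv =>
    HasWeights.ne_zero' (nv_pos v) (cX_weights (hα v hv))) hs, LW_cX hα hi hs]
  rw [← zpow_mul, ← zpow_mul]
  have h2 : (-1 : ℤ) ^ i * (ε * (ε * (-1) ^ i)) = 1 := by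
    have h3 : (-1 : ℤ) ^ i * (-1) ^ i = 1 := by
      rw [← mul_pow]; norm_num
    have h4 : ε * ε = 1 := by rcases hε with rfl | rfl <;> norm_num
    linear_combination (ε * ε) * h3 + h4
  rw [h2, zpow_one]

end Pool.Agent.V8H32.CV
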