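import Pool.Agent.V8H32.CV.Main

/-! # The properties of the L-function and of the weight part are equivalent -/

set_option autoImplicit false

namespace Pool.Agent.V8H32.CV
open Finset NumberField IsDedekindDomain
open Pool.Agent.V8H25.CF
open Pool.Agent.V8H32.CF (nv lf wpart LW Bdd)
open Pool.Agent.V8H32.CU
open scoped Classical

lemma re_shift (s : ℂ) (a : ℕ) : (s + (a : ℂ)).re = s.re + a := by
  rw [Complex.add_re, Complex.natCast_re]

lemma re_shift' (s : ℂ) (a : ℕ) : (s - (a : ℂ)).re = s.re - a := by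
  rw [Complex.sub_re, Complex.natCast_re]

theorem mero_shift_iff {L1 L2 : ℂ → ℂ} {w a : ℕ}
    (h : ∀ s : ℂ, (w : ℝ) / 2 + 1 < s.re → L1 s = L2 (s + a)) :
    Mero L1 ((w : ℝ) / 2 + 1) ↔ Mero L2 (((w + 2 * a : ℕ) : ℝ) / 2 + 1) := by
  constructor
  · rintro ⟨Λ, h1, h2⟩
    refine ⟨fun s => Λ (s - a), fun s => ?_, fun s hs => ?_⟩
    · exact (h1 (s - a)).comp_analyticAt (g := fun s : ℂ => s - a) (by fun_prop)
    · have h3 : (w : ℝ) / 2 + 1 < (s - (a : ℂ)).re := by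
        rw [re_shift']; push_cast at hs; linarith
      show Λ (s - a) = L2 s
      rw [h2 _ h3, h _ h3, sub_add_cancel]
  · rintro ⟨Λ, h1, h2⟩
    refine ⟨fun s => Λ (s + a), fun s => ?_, fun s hs => ?_⟩
    · exact (h1 (s + a)).comp_analyticAt (g := fun s : ℂ => s + a) (by fun_prop)
    · show Λ (s + a) = L1 s
      rw [h s hs]
      apply h2
      rw [re_shift]; push_cast; linarith

theorem cont_shift_iff {L1 L2 : ℂ → ℂ} {w a : ℕ}
    (h : ∀ s : ℂ, (w : ℝ) / 2 + 1 < s.re → L1 s = L2 (s + a)) :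
    Cont L1 w ↔ Cont L2 (w + 2 * a) := by
  have hodd : Odd (w + 2 * a) ↔ Odd w := by
    rw [Nat.odd_add]
    exact ⟨fun h => h.2 (even_two_mul a), fun h => ⟨fun _ => even_two_mul a, fun _ => h⟩⟩
  constructor
  · rintro ⟨Λ, g1, g2, g3, g4⟩
    refine ⟨fun s => Λ (s - a), fun s => ?_, fun s hs => ?_, fun ho s => ?_, fun s hs => ?_⟩
    · exact (g1 (s - a)).comp_analyticAt (g := fun s : ℂ => s - a) (by fun_prop)
    · have : s - (a : ℂ) ≠ (w : ℂ) / 2 + 1 := by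
        intro h
        apply hs
        push_cast
        linear_combination h
      exact (g2 _ this).fun_comp (f := fun s : ℂ => s - a) (by fun_prop)
    · exact (g3 (hodd.1 ho) _).fun_comp (f := fun s : ℂ => s - a) (by fun_prop)
    · have h3 : (w : ℝ) / 2 + 1 < (s - (a : ℂ)).re := by
        rw [re_shift']; push_cast at hs; linarith
      show Λ (s - a) = L2 s
      rw [g4 _ h3, h _ h3, sub_add_cancel]
  · rintro ⟨Λ, g1, g2, g3, g4⟩
    refine ⟨fun s => Λ (s + a), fun s => ?_, fun s hs => ?_, fun ho s => ?_, fun s hs => ?_⟩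
    · exact (g1 (s + a)).comp_analyticAt (g := fun s : ℂ => s + a) (by fun_prop)
    · have : s + (a : ℂ) ≠ ((w + 2 * a : ℕ) : ℂ) / 2 + 1 := by
        intro h
        apply hs
        push_cast at h
        linear_combination h
      exact (g2 _ this).fun_comp (f := fun s : ℂ => s + a) (by fun_prop)
    · exact (g3 (hodd.2 ho) _).fun_comp (f := fun s : ℂ => s + a) (by fun_prop)
    · show Λ (s + a) = L1 s
      rw [h s hs]
      apply g4
      rw [re_shift]; push_cast; linarith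

variable {K : Type} [Field K] [NumberField K]

/-- part 1, with the equivalences -/
theorem part1e (n d : ℕ) (X : Set (MvPolynomial (Fin (n + 1)) (𝓞 K)))
    (hom : ∀ f ∈ X, ∃ k, f.IsHomogeneous k) {ε : ℤ} (hε : ε = 1 ∨ ε = -1) :
    ∃ (M a : ℕ) (F : MvPolynomial (Fin M) ℤ),
      F.totalDegree ≤ 3 ∧ (∀ m, F.coeff m = 0 ∨ F.coeff m = 1 ∨ F.coeff m = -1) ∧ SmoothOne F ∧
      ∀ (S : Finset Nat.Primes) (N : ℕ → ℕ) (α : HeightOneSpectrum (𝓞 K) → ∀ k, Fin (N k) → ℂ),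
        (∀ v, ¬ Above S v → IsFrob X d N v (α v)) →
        (∀ p : Nat.Primes, p ∉ S → ∃! c : ℂ →₀ ℤ, IsDiv F p c) ∧
        ∀ c : Nat.Primes → ℂ →₀ ℤ, (∀ p, p ∉ S → IsDiv F p (c p)) → Bdp S c ∧
          ∀ i, i ≤ 2 * d →
            (∀ s : ℂ, (i : ℝ) / 2 + 1 < s.re →
              LHp S α i s = LWp S c (i + 2 * a) (s + a) ^ (ε * (-1 : ℤ) ^ i)) ∧
            (ε = (-1) ^ i → (∀ p, p ∉ S → Eff p (i + 2 * a) (c p)) ∧
              (Mero (LHp S α i) ((i : ℝ) / 2 + 1) ↔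
                Mero (LWp S c (i + 2 * a)) (((i + 2 * a : ℕ) : ℝ) / 2 + 1)) ∧
              (Cont (LHp S α i) i ↔ Cont (LWp S c (i + 2 * a)) (i + 2 * a))) := by
  obtain ⟨M, a, F, h1, h2, h3, h4⟩ := part1 n d X hom hε
  refine ⟨M, a, F, h1, h2, h3, fun S N α hα => ?_⟩
  obtain ⟨h5, h6⟩ := h4 S N α hα
  refine ⟨h5, fun c hc => ?_⟩
  obtain ⟨h7, h8⟩ := h6 c hc
  refine ⟨h7, fun i hi => ?_⟩
  obtain ⟨h9, h10⟩ := h8 i hi
  refine ⟨h10, fun he => ?_⟩
  have h11 : ∀ s : ℂ, (i : ℝ) / 2 + 1 < s.re → LHp S α i s = LWp S c (i + 2 * a) (s + a) := by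
    intro s hs
    rw [h10 s hs, sign_sq he, zpow_one]
  exact ⟨h9 he, mero_shift_iff h11, cont_shift_iff h11⟩

end Pool.Agent.V8H32.CV
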