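import Pool.Agent.V8H32.CV.Defs2
import Pool.Agent.V8H35.CV.Hom

set_option autoImplicit false

namespace Pool.Agent.V8H32.CVP
open NumberField IsDedekindDomain
open Pool.Agent.V8H32.CF (nv lf wpart LW Bdd)
open Pool.Agent.V8H32.CV
open Pool.Agent.V8H35.CV
open Rat.HeightOneSpectrum (primesEquiv)
open scoped Classical

variable {K : Type} [Field K] [NumberField K]

lemma nvQ (P : HeightOneSpectrum (𝓞 ℚ)) : nv P = (primesEquiv P : ℕ) := by
  obtain ⟨l, hl, h1, h2⟩ := exists_prime P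
  have h3 : (l : 𝓞 ℚ) ∈ P.asIdeal := by rw [h2]; exact Ideal.mem_span_singleton_self _
  have h4 : (primesEquiv P : ℕ) ∣ l := by
    change Rat.HeightOneSpectrum.natGenerator P ∣ l
    rw [Rat.HeightOneSpectrum.natGenerator_dvd_iff]
    have := Ideal.mem_map_of_mem (Rat.IsIntegralClosure.intEquiv (𝓞 ℚ)) h3
    simpa using this
  rw [h1]
  exact ((Nat.prime_dvd_prime_iff_eq (primesEquiv P).2 hl).1 h4).symm

/-- the primes of `𝓞 ℚ` of a set of prime numbers -/
noncomputable def SQ (S : Finset Nat.Primes) : Finset (HeightOneSpectrum (𝓞 ℚ)) :=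
  S.map primesEquiv.symm.toEmbedding

theorem LWp_eq (S : Finset Nat.Primes) (c : Nat.Primes → ℂ →₀ ℤ) (w : ℕ) (s : ℂ) :
    LWp S c w s = LW (SQ S) (fun P => c (primesEquiv P)) w s := by
  unfold LWp LW
  rw [← Equiv.tprod_eq (primesEquiv : HeightOneSpectrum (𝓞 ℚ) ≃ Nat.Primes)]
  apply tprod_congr
  intro P
  have h : primesEquiv P ∈ S ↔ P ∈ SQ S := by
    unfold SQ
    rw [Finset.mem_map]
    constructor
    · intro h
      exact ⟨_, h, by simp⟩
    · rintro ⟨p, hp, rfl⟩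
      simpa using hp
  by_cases hP : P ∈ SQ S
  · rw [if_pos (h.2 hP), if_pos hP]
  · rw [if_neg (fun h' => hP (h.1 h')), if_neg hP, nvQ]

theorem above_iff (S : Finset Nat.Primes) (v : HeightOneSpectrum (𝓞 K)) :
    Above S v ↔ dn v ∈ SQ S := by
  have h1 := nv_eq_pow v
  rw [nvQ] at h1
  unfold Above SQ
  rw [Finset.mem_map, h1]
  constructor
  · rintro ⟨p, hp, hpv⟩
    have h2 := p.2.dvd_of_dvd_pow hpv
    have h3 : p = primesEquiv (dn v) := Nat.Primes.coe_nat_injective ((Nat.prime_dvd_prime_iff_eq p.2 (primesEquiv (dn v)).2).1 h2)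
    exact ⟨p, hp, by rw [h3]; simp⟩
  · rintro ⟨p, hp, hpv⟩
    refine ⟨p, hp, ?_⟩
    rw [← hpv]
    simp only [Equiv.coe_toEmbedding, Equiv.apply_symm_apply]
    exact dvd_pow_self _ (fd_pos v).ne'

end Pool.Agent.V8H32.CVP
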