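import Pool.Agent.V8H32.CV.Div
import Pool.Agent.V8H32.CV.Pr
import Pool.Agent.V8H25.CU.Uniq

/-! # The final statements -/

set_option autoImplicit false

namespace Pool.Agent.V8H32.CV
open Finset NumberField IsDedekindDomain
open Pool.Agent.TH958.BV (cone)
open Pool.Agent.V8H25.CF
open Pool.Agent.V8H25.CV
open Pool.Agent.V8H25.CU (ps_unique)
open Pool.Agent.V8H32.CF (nv lf wpart LW Bdd)
open Pool.Agent.V8H32.CU
open Pool.Agent.V8H35.CV
open Pool.Agent.V8H32.CVP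
open Rat.HeightOneSpectrum (primesEquiv)
open scoped Classical

variable {K : Type} [Field K] [NumberField K]

/-- The weight `w` part of `c` at `p` is effective. -/
def Eff (p w : ℕ) (c : ℂ →₀ ℤ) : Prop := ∀ z : ℂ, ‖z‖ = (p : ℝ) ^ ((w : ℝ) / 2) → 0 ≤ c z

/-- `L` extends from `Re s > w/2 + 1` to a function meromorphic on `ℂ`, holomorphic except possibly for a
pole at `s = w/2 + 1`, and entire if `w` is odd. -/
def Cont (L : ℂ → ℂ) (w : ℕ) : Prop :=
  ∃ Λ : ℂ → ℂ, (∀ s, MeromorphicAt Λ s) ∧ (∀ s : ℂ, s ≠ (w : ℂ) / 2 + 1 → AnalyticAt ℂ Λ s) ∧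
    (Odd w → ∀ s, AnalyticAt ℂ Λ s) ∧ ∀ s : ℂ, (w : ℝ) / 2 + 1 < s.re → Λ s = L s

lemma isDiv_unique {M : ℕ} {F : MvPolynomial (Fin M) ℤ} {p : ℕ} (hp : p.Prime) {c c' : ℂ →₀ ℤ}
    (h : IsDiv F p c) (h' : IsDiv F p c') : c = c' := by
  refine ps_unique (HasWeights.ne_zero' hp.pos h.1) (HasWeights.ne_zero' hp.pos h'.1) fun e he => ?_
  have : Fact p.Prime := ⟨hp⟩
  have hfin : Finite (GaloisField p e) := inferInstance
  have hcard : Nat.card (GaloisField p e) = p ^ e := GaloisField.card p e he.ne'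
  rw [← h.2 (GaloisField p e) e hcard, ← h'.2 (GaloisField p e) e hcard]

/-- the divisor of the hypersurface at the prime number `p` -/
noncomputable def cF (ε : ℤ) (a A B : ℕ) (m : ℤ) (c : HeightOneSpectrum (𝓞 K) → ℂ →₀ ℤ)
    (p : Nat.Primes) : ℂ →₀ ℤ :=
  cW ((p : ℕ) : ℂ) ε a A B m (cQ c (primesEquiv.symm p))

lemma nvQ' (p : Nat.Primes) : nv (primesEquiv.symm p : HeightOneSpectrum (𝓞 ℚ)) = p := by
  rw [nvQ, Equiv.apply_symm_apply]

lemma above_iff' {S : Finset Nat.Primes} {p : Nat.Primes} {v : HeightOneSpectrum (𝓞 K)}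
    (hv : dn v = primesEquiv.symm p) : Above S v ↔ p ∈ S := by
  rw [above_iff, hv]
  unfold SQ
  simp

theorem cF_isDiv {n M a A B d : ℕ} {ε m : ℤ} {X : Set (MvPolynomial (Fin n) (𝓞 K))}
    {F : MvPolynomial (Fin M) ℤ}
    (hF : ∀ (κ : Type) [Field κ] [Finite κ] [Fintype (𝓞 K →+* κ)],
        ((Nat.card κ : ℤ) - 1) * onePts F (Int.castRingHom κ) =
          ((Nat.card κ : ℤ) - 1) * ((Nat.card κ : ℤ) ^ A + m * (Nat.card κ : ℤ) ^ B) +
            ε * (Nat.card κ : ℤ) ^ a * ∑ φ : 𝓞 K →+* κ, (cone X φ : ℤ))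
    {S : Finset Nat.Primes} {N : ℕ → ℕ} {α : HeightOneSpectrum (𝓞 K) → ∀ k, Fin (N k) → ℂ}
    (hα : ∀ v, ¬ Above S v → IsFrob X d N v (α v)) {p : Nat.Primes} (hp : p ∉ S) :
    IsDiv F p (cF ε a A B m (fun v => cX d (α v)) p) := by
  have h := isDiv hF (p := primesEquiv.symm p) (d := d) (N := N) (α := α)
    (fun v hv => hα v (fun h => hp ((above_iff' hv).1 h)))
  rw [nvQ'] at h
  exact h

theorem cF_bdp {S : Finset Nat.Primes} {N : ℕ → ℕ} (d : ℕ)
    (α : HeightOneSpectrum (𝓞 K) → ∀ k, Fin (N k) → ℂ) (ε : ℤ) (a A B : ℕ) (m : ℤ) :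
    Bdp S (cF ε a A B m (fun v => cX d (α v))) := by
  obtain ⟨C, hC⟩ := cX_bdd (∅ : Finset (HeightOneSpectrum (𝓞 K))) d α
  have hBQ : Bdd (SQ S) (cQ (fun v => cX d (α v))) :=
    cQ_bdd (B := C) (fun v _ => hC v (Finset.notMem_empty v))
  obtain ⟨D, hD⟩ := cW_bdd hBQ ε a A B m
  refine ⟨D, fun p hp => ?_⟩
  have h := hD (primesEquiv.symm p) (by unfold SQ; simpa using hp)
  have e : cF ε a A B m (fun v => cX d (α v)) p = cW (nv (primesEquiv.symm p : HeightOneSpectrum (𝓞 ℚ)))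
      ε a A B m (cQ (fun v => cX d (α v)) (primesEquiv.symm p)) := by
    unfold cF
    rw [nvQ']
  rw [e]
  exact h

lemma fib_fin (K : Type) [Field K] [NumberField K] (P : HeightOneSpectrum (𝓞 ℚ)) :
    Set.Finite {v : HeightOneSpectrum (𝓞 K) | dn v = P} := by
  have h : Finite ↥{v : HeightOneSpectrum (𝓞 K) | dn v = P} := fiber_finite (K := K) P
  exact Set.toFinite _

/-- the primes of `K` above `S` -/
noncomputable def SK (K : Type) [Field K] [NumberField K] (S : Finset Nat.Primes) :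
    Finset (HeightOneSpectrum (𝓞 K)) :=
  (SQ S).biUnion (fun P => (fib_fin K P).toFinset)

lemma mem_SK {S : Finset Nat.Primes} (v : HeightOneSpectrum (𝓞 K)) : v ∈ SK K S ↔ dn v ∈ SQ S := by
  unfold SK
  rw [Finset.mem_biUnion]
  constructor
  · rintro ⟨P, hP, hv⟩
    rw [Set.Finite.mem_toFinset] at hv
    have : dn v = P := hv
    rw [this]; exact hP
  · intro h
    refine ⟨dn v, h, ?_⟩
    rw [Set.Finite.mem_toFinset]
    exact rfl

lemma mem_SK' {S : Finset Nat.Primes} (v : HeightOneSpectrum (𝓞 K)) : v ∈ SK K S ↔ Above S v := by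
  rw [mem_SK, above_iff]

lemma LHp_eq (S : Finset Nat.Primes) {N : ℕ → ℕ}
    (α : HeightOneSpectrum (𝓞 K) → ∀ k, Fin (N k) → ℂ) (i : ℕ) (s : ℂ) :
    LHp S α i s = LH (SK K S) α i s := by
  unfold LHp LH
  apply tprod_congr
  intro v
  by_cases h : Above S v
  · rw [if_pos h, if_pos ((mem_SK' v).2 h)]
  · rw [if_neg h, if_neg (fun h' => h ((mem_SK' v).1 h'))]

/-- **the identity** -/
theorem identityZ {S : Finset Nat.Primes} {N : ℕ → ℕ}
    {α : HeightOneSpectrum (𝓞 K) → ∀ k, Fin (N k) → ℂ}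
    (hα : ∀ v, ¬ Above S v → ∀ k j, ‖α v k j‖ = (nv v : ℝ) ^ ((k : ℝ) / 2)) {ε : ℤ}
    (hε : ε = 1 ∨ ε = -1) {a A B d i : ℕ} (m : ℤ) (hA : a + d < A) (hB : a + d < B)
    (hi : i ≤ 2 * d) {s : ℂ} (hs : (i : ℝ) / 2 + 1 < s.re) :
    LHp S α i s = LWp S (cF ε a A B m (fun v => cX d (α v))) (i + 2 * a) (s + a) ^
      (ε * (-1 : ℤ) ^ i) := by
  rw [LHp_eq, identityQ (S' := SQ S) (fun v => mem_SK v) (fun v hv => hα v (fun h => hv ((mem_SK' v).2 h)))
    hε m hA hB hi hs, LWp_eq]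
  congr 1
  unfold cF
  congr 1
  funext P
  rw [Equiv.symm_apply_apply, nvQ]

/-- effectivity of the weight part -/
theorem cF_eff {S : Finset Nat.Primes} {N : ℕ → ℕ}
    {α : HeightOneSpectrum (𝓞 K) → ∀ k, Fin (N k) → ℂ}
    (hα : ∀ v, ¬ Above S v → ∀ k j, ‖α v k j‖ = (nv v : ℝ) ^ ((k : ℝ) / 2)) {a A B d i : ℕ} (m : ℤ)
    (hA : a + d < A) (hB : a + d < B) (hi : i ≤ 2 * d) {p : Nat.Primes} (hp : p ∉ S) :
    Eff p (i + 2 * a) (cF ((-1) ^ i) a A B m (fun v => cX d (α v)) p) := by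
  intro z hz
  set P : HeightOneSpectrum (𝓞 ℚ) := primesEquiv.symm p with hP
  have hnv : nv P = p := nvQ' p
  have h1 : wpart (nv P) (i + 2 * a) (cF ((-1) ^ i) a A B m (fun v => cX d (α v)) p) z =
      cF ((-1) ^ i) a A B m (fun v => cX d (α v)) p z := by
    unfold wpart
    rw [Finsupp.filter_apply, if_pos]
    rw [hnv]; exact hz
  rw [← h1]
  unfold cF cW
  rw [← hnv, wpart_add, wpart_add, wpart_sh_small P (by omega) (HasWeights.single (nv P) _),
    wpart_sh_small P (by omega) (HasWeights.single (nv P) _), add_zero, add_zero, wpart_zsmul, wpart_sh]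
  let _ := Fintype.ofFinite {v : HeightOneSpectrum (𝓞 K) // dn v = P}
  have e1 : cQ (fun v => cX d (α v)) P =
      ∑ v : {v : HeightOneSpectrum (𝓞 K) // dn v = P}, ind (fd v.1) (cX d (α v.1)) := cQ_eq _ _
  have h2 : wpart (nv P) i (cQ (fun v => cX d (α v)) P) =
      (-1 : ℤ) ^ i • ∑ v : {v : HeightOneSpectrum (𝓞 K) // dn v = P}, ind (fd v.1) (cK (α v.1) i) := by
    rw [e1, wpart_sum, Finset.smul_sum]
    apply Finset.sum_congr rfl
    intro v _
    have hv : ¬ Above S v.1 := fun h => hp ((above_iff' v.2).1 h)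
    have e2 : nv v.1 = nv P ^ fd v.1 := by
      have := nv_eq_pow v.1
      rw [v.2] at this
      exact this
    rw [wpart_ind (fd_pos v.1), ← e2, wpart_cX (hα v.1 hv), if_pos hi]
    ext y
    rw [ind_apply (fd_pos v.1), Finsupp.smul_apply, Finsupp.smul_apply, ind_apply (fd_pos v.1)]
  rw [h2]
  have h3 : ∀ y, 0 ≤ (∑ v : {v : HeightOneSpectrum (𝓞 K) // dn v = P}, ind (fd v.1) (cK (α v.1) i)) y := by
    intro y
    rw [Finsupp.finsetSum_apply]
    apply Finset.sum_nonneg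
    intro v _
    rw [ind_apply (fd_pos v.1)]
    unfold cK
    rw [Finsupp.finsetSum_apply]
    apply Finset.sum_nonneg
    intro j _
    rw [Finsupp.single_apply]
    split_ifs <;> norm_num
  have hz0 : (nv P : ℂ) ^ a ≠ 0 := pow_ne_zero _ (nv_ne_zero P)
  have h4 : ∀ c : ℂ →₀ ℤ, sh (nv P : ℂ) a c z = c (z / (nv P : ℂ) ^ a) := by
    intro c
    have h5 : z = (nv P : ℂ) ^ a * (z / (nv P : ℂ) ^ a) := by field_simp
    unfold sh
    conv_lhs => rw [h5]
    exact Finsupp.mapDomain_apply (inj_mul (nv_ne_zero P) a) c _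
  rw [Finsupp.smul_apply, h4, Finsupp.smul_apply, smul_smul, ← mul_pow]
  have h6 : ((-1 : ℤ) * -1) ^ i = 1 := by norm_num
  rw [h6, one_smul]
  exact h3 _

end Pool.Agent.V8H32.CV
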