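import Pool.Agent.V8H32.CV.Fin

/-! # The main theorem -/

set_option autoImplicit false

namespace Pool.Agent.V8H32.CV
open Finset NumberField IsDedekindDomain
open Pool.Agent.TH958.BV (cone)
open Pool.Agent.V8H25.CF
open Pool.Agent.V8H25.CV
open Pool.Agent.V8H32.CF (nv lf wpart LW Bdd)
open Pool.Agent.V8H32.CU
open Pool.Agent.V8H35.CV
open Pool.Agent.V8H32.CVP
open Rat.HeightOneSpectrum (primesEquiv)
open scoped Classical

variable {K : Type} [Field K] [NumberField K]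

lemma LWp_congr {S : Finset Nat.Primes} {c c' : Nat.Primes → ℂ →₀ ℤ} (h : ∀ p, p ∉ S → c p = c' p)
    (w : ℕ) (s : ℂ) : LWp S c w s = LWp S c' w s := by
  unfold LWp
  apply tprod_congr
  intro p
  by_cases hp : p ∈ S
  · rw [if_pos hp, if_pos hp]
  · rw [if_neg hp, if_neg hp, h p hp]

lemma Bdp_congr {S : Finset Nat.Primes} {c c' : Nat.Primes → ℂ →₀ ℤ} (h : ∀ p, p ∉ S → c p = c' p)
    (hB : Bdp S c) : Bdp S c' := by
  obtain ⟨B, hB⟩ := hB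
  exact ⟨B, fun p hp => by rw [← h p hp]; exact hB p hp⟩

/-- part 1 -/
theorem part1 (n d : ℕ) (X : Set (MvPolynomial (Fin (n + 1)) (𝓞 K)))
    (hom : ∀ f ∈ X, ∃ k, f.IsHomogeneous k) {ε : ℤ} (hε : ε = 1 ∨ ε = -1) :
    ∃ (M a : ℕ) (F : MvPolynomial (Fin M) ℤ),
      F.totalDegree ≤ 3 ∧ (∀ m, F.coeff m = 0 ∨ F.coeff m = 1 ∨ F.coeff m = -1) ∧ SmoothOne F ∧
      ∀ (S : Finset Nat.Primes) (N : ℕ → ℕ) (α : HeightOneSpectrum (𝓞 K) → ∀ k, Fin (N k) → ℂ),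
        (∀ v, ¬ Above S v → IsFrob X d N v (α v)) →
        (∀ p : Nat.Primes, p ∉ S → ∃! c : ℂ →₀ ℤ, IsDiv F p c) ∧
        ∀ c : Nat.Primes → ℂ →₀ ℤ, (∀ p, p ∉ S → IsDiv F p (c p)) → Bdp S c ∧
          ∀ i, i ≤ 2 * d →
            (ε = (-1) ^ i → ∀ p, p ∉ S → Eff p (i + 2 * a) (c p)) ∧
            ∀ s : ℂ, (i : ℝ) / 2 + 1 < s.re →
              LHp S α i s = LWp S c (i + 2 * a) (s + a) ^ (ε * (-1 : ℤ) ^ i) := by
  obtain ⟨M, a, A, B, m, F, hA, hB, h1, h2, h3, h4⟩ := smooth_cubic n d hε X hom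
  refine ⟨M, a, F, h1, h2, h3, fun S N α hα => ⟨fun p hp => ⟨_, cF_isDiv h4 hα hp, fun c' hc' =>
    isDiv_unique p.2 hc' (cF_isDiv h4 hα hp)⟩, fun c hc => ?_⟩⟩
  have hcc : ∀ p, p ∉ S → cF ε a A B m (fun v => cX d (α v)) p = c p := fun p hp =>
    isDiv_unique p.2 (cF_isDiv h4 hα hp) (hc p hp)
  have hα' : ∀ v, ¬ Above S v → ∀ k j, ‖α v k j‖ = (nv v : ℝ) ^ ((k : ℝ) / 2) :=
    fun v hv => (hα v hv).1
  refine ⟨Bdp_congr hcc (cF_bdp d α ε a A B m), fun i hi => ⟨fun he p hp => ?_, fun s hs => ?_⟩⟩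
  · rw [← hcc p hp, he]
    exact cF_eff hα' m hA hB hi hp
  · rw [identityZ hα' hε m hA hB hi hs, LWp_congr hcc]

/-- The hypersurfaces: smooth affine cubic hypersurfaces with coefficients `0, 1, -1`, with their Frobenius
divisors. -/
structure IsCubic {M : ℕ} (F : MvPolynomial (Fin M) ℤ) (S : Finset Nat.Primes)
    (c : Nat.Primes → ℂ →₀ ℤ) : Prop where
  deg : F.totalDegree ≤ 3
  coeffs : ∀ m, F.coeff m = 0 ∨ F.coeff m = 1 ∨ F.coeff m = -1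
  smooth : SmoothOne F
  divisor : ∀ p, p ∉ S → IsDiv F p (c p)
  bounded : Bdp S c

lemma exists_div {M : ℕ} {F : MvPolynomial (Fin M) ℤ} {S : Finset Nat.Primes}
    (h : ∀ p : Nat.Primes, p ∉ S → ∃! c : ℂ →₀ ℤ, IsDiv F p c) :
    ∃ c : Nat.Primes → ℂ →₀ ℤ, ∀ p, p ∉ S → IsDiv F p (c p) := by
  choose! c hc using fun (p : Nat.Primes) (hp : p ∉ S) => (h p hp).exists
  exact ⟨c, hc⟩

lemma sign_sq {ε : ℤ} {i : ℕ} (h : ε = (-1) ^ i) : ε * (-1 : ℤ) ^ i = 1 := by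
  rw [h, ← mul_pow]; norm_num

/-- part 3 -/
theorem part3
    (H : ∀ (M : ℕ) (F : MvPolynomial (Fin M) ℤ) (S : Finset Nat.Primes) (c : Nat.Primes → ℂ →₀ ℤ),
      IsCubic F S c → ∀ w : ℕ, (∀ p, p ∉ S → Eff p w (c p)) → Cont (LWp S c w) w)
    (n d : ℕ) (X : Set (MvPolynomial (Fin (n + 1)) (𝓞 K)))
    (hom : ∀ f ∈ X, ∃ k, f.IsHomogeneous k) (S : Finset Nat.Primes) (N : ℕ → ℕ)
    (α : HeightOneSpectrum (𝓞 K) → ∀ k, Fin (N k) → ℂ)
    (hα : ∀ v, ¬ Above S v → IsFrob X d N v (α v)) (i : ℕ) (hi : i ≤ 2 * d) :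
    Cont (LHp S α i) i := by
  have hε : (-1 : ℤ) ^ i = 1 ∨ (-1 : ℤ) ^ i = -1 := neg_one_pow_eq_or ℤ i
  obtain ⟨M, a, F, h1, h2, h3, h4⟩ := part1 n d X hom hε
  obtain ⟨h4', h5⟩ := h4 S N α hα
  obtain ⟨c, hc⟩ := exists_div h4'
  obtain ⟨hB, h6⟩ := h5 c hc
  obtain ⟨h7, h8⟩ := h6 i hi
  obtain ⟨Λ, g1, g2, g3, g4⟩ := H M F S c ⟨h1, h2, h3, hc, hB⟩ (i + 2 * a) (h7 rfl)
  refine ⟨fun s => Λ (s + a), fun s => ?_, fun s hs => ?_, fun hodd s => ?_, fun s hs => ?_⟩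
  · exact (g1 (s + a)).comp_analyticAt (g := fun s : ℂ => s + a) (by fun_prop)
  · have : s + (a : ℂ) ≠ ((i + 2 * a : ℕ) : ℂ) / 2 + 1 := by
      intro h
      apply hs
      push_cast at h
      linear_combination h
    exact (g2 _ this).fun_comp (f := fun s : ℂ => s + a) (by fun_prop)
  · have hodd' : Odd (i + 2 * a) := by
      rw [Nat.odd_add]
      exact ⟨fun _ => even_two_mul a, fun _ => hodd⟩
    exact (g3 hodd' _).fun_comp (f := fun s : ℂ => s + a) (by fun_prop)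
  · rw [h8 s hs, sign_sq rfl, zpow_one]
    apply g4
    rw [Complex.add_re, Complex.natCast_re]
    push_cast
    linarith

/-- part 2 -/
theorem part2
    (H : ∀ (M : ℕ) (F : MvPolynomial (Fin M) ℤ) (S : Finset Nat.Primes) (c : Nat.Primes → ℂ →₀ ℤ),
      IsCubic F S c → ∀ w : ℕ, (∀ p, p ∉ S → Eff p w (c p)) → Mero (LWp S c w) ((w : ℝ) / 2 + 1))
    (n d : ℕ) (X : Set (MvPolynomial (Fin (n + 1)) (𝓞 K)))
    (hom : ∀ f ∈ X, ∃ k, f.IsHomogeneous k) (S : Finset (HeightOneSpectrum (𝓞 K))) (N : ℕ → ℕ)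
    (α : HeightOneSpectrum (𝓞 K) → ∀ k, Fin (N k) → ℂ)
    (hα : ∀ v, v ∉ S → IsFrob X d N v (α v)) (B : HeightOneSpectrum (𝓞 K) → Polynomial ℂ)
    (i : ℕ) (hi : i ≤ 2 * d) :
    Mero (fun s => (∏ v ∈ S, ((B v).eval ((nv v : ℂ) ^ (-s)))⁻¹) * LH S α i s) ((i : ℝ) / 2 + 1) := by
  have hε : (-1 : ℤ) ^ i = 1 ∨ (-1 : ℤ) ^ i = -1 := neg_one_pow_eq_or ℤ i
  obtain ⟨M, a, F, h1, h2, h3, h4⟩ := part1 n d X hom hε
  set S0 : Finset Nat.Primes := S.image (fun v => primesEquiv (dn v)) with hS0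
  have hsub : S ⊆ SK K S0 := by
    intro v hv
    rw [mem_SK]
    unfold SQ
    rw [Finset.mem_map]
    exact ⟨primesEquiv (dn v), Finset.mem_image_of_mem _ hv, by simp⟩
  have hα0 : ∀ v, ¬ Above S0 v → IsFrob X d N v (α v) := fun v hv =>
    hα v (fun h => hv ((mem_SK' v).1 (hsub h)))
  obtain ⟨h4', h5⟩ := h4 S0 N α hα0
  obtain ⟨c, hc⟩ := exists_div h4'
  obtain ⟨hB, h6⟩ := h5 c hc
  obtain ⟨h7, h8⟩ := h6 i hi
  have h9 := H M F S0 c ⟨h1, h2, h3, hc, hB⟩ (i + 2 * a) (h7 rfl)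
  have h10 : Mero (LH (SK K S0) α i) ((i : ℝ) / 2 + 1) := by
    refine (LH_mero (w := i) (a := a) h9 1).congr fun s hs => ?_
    rw [← LHp_eq, h8 s hs, sign_sq rfl, zpow_one]
  have hn : ∀ v, v ∉ S → ∀ k j, ‖α v k j‖ = (nv v : ℝ) ^ ((k : ℝ) / 2) := fun v hv => (hα v hv).1
  have h11 : Mero (LW (SK K S0) (fun v => cX d (α v)) i) ((i : ℝ) / 2 + 1) := by
    refine (h10.zpow ((-1 : ℤ) ^ i)).congr fun s hs => ?_
    rw [LW_cX (fun v hv => hn v (fun h => hv (hsub h))) hi hs]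
  have h12 := Mero_enlarge hsub (cX_bdd S d α) h11
  have h13 : Mero (LH S α i) ((i : ℝ) / 2 + 1) := by
    refine (h12.zpow ((-1 : ℤ) ^ i)).congr fun s hs => ?_
    rw [LW_cX hn hi hs, ← zpow_mul, ← mul_pow]
    norm_num
  refine (Mero.of_meromorphic (L := fun s => ∏ v ∈ S, ((B v).eval ((nv v : ℂ) ^ (-s)))⁻¹)
    (fun s => ?_) _).mul h13
  refine MeromorphicAt.fun_prod fun v _ => ?_
  have h14 : AnalyticAt ℂ (fun s : ℂ => (B v).eval ((nv v : ℂ) ^ (-s))) s := by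
    have h15 : AnalyticAt ℂ (fun s : ℂ => (nv v : ℂ) ^ (-s)) s := by
      have h3 : (fun s : ℂ => (nv v : ℂ) ^ (-s)) =
          fun s : ℂ => Complex.exp (Complex.log (nv v : ℂ) * (-s)) := by
        funext s
        rw [Complex.cpow_def_of_ne_zero (nv_ne_zero v)]
      rw [h3]
      fun_prop
    exact h15.aeval_polynomial (B v)
  exact h14.meromorphicAt.inv

/-- absolute convergence -/
theorem part0 (S : Finset Nat.Primes) (c : Nat.Primes → ℂ →₀ ℤ) (hB : Bdp S c) (w : ℕ) (s : ℂ)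
    (hs : (w : ℝ) / 2 + 1 < s.re) :
    Multipliable (fun p : Nat.Primes => if p ∈ S then 1 else
      lf (wpart (p : ℕ) w (c p)) (((p : ℕ) : ℂ) ^ (-s))) := by
  have h1 : Bdd (SQ S) (fun P => c (primesEquiv P)) := by
    obtain ⟨B, hB⟩ := hB
    refine ⟨B, fun P hP => hB _ (fun h => hP ?_)⟩
    unfold SQ
    rw [Finset.mem_map]
    exact ⟨primesEquiv P, h, by simp⟩
  have h2 := LW_multipliable h1 hs
  have h3 := (Equiv.multipliable_iff (primesEquiv.symm : Nat.Primes ≃ HeightOneSpectrum (𝓞 ℚ))).2 h2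
  refine h3.congr fun p => ?_
  simp only [Function.comp_apply, Equiv.apply_symm_apply, nvQ']
  unfold SQ
  simp

end Pool.Agent.V8H32.CV
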