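import Pool.Agent.V8H32.CU.Norm
import Pool.Agent.V8H61.CU.Dig
import Pool.Agent.V8H61.CU.Dig2

/-! # The smooth affine cubic hypersurface over the integers -/

set_option autoImplicit false

namespace Pool.Agent.V8H32.CV
open Finset MvPolynomial
open Pool.Agent.V8H32.CU
open Pool.Agent.V8H61.CU (Cf digits FF_good_rename)
open scoped Classical

theorem cubic_of_system {σ : Type} [Fintype σ] (i0 : σ) (X2 : Finset (MvPolynomial σ ℤ)) (d : ℕ) :
    ∃ (M a T : ℕ) (F : MvPolynomial (Fin M) ℤ), 0 < M ∧ d < T ∧ F.totalDegree ≤ 3 ∧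
      (∀ m, coeff m F = 0 ∨ coeff m F = 1 ∨ coeff m F = -1) ∧ SmoothOne F ∧
      ∀ (κ : Type) [Field κ] [Finite κ],
        (onePts F (Int.castRingHom κ) : ℤ) = (Nat.card κ : ℤ) ^ a * ((Nat.card κ : ℤ) ^ T -
          Nat.card {x : σ → κ // ∀ f ∈ X2, eval₂ (Int.castRingHom κ) x f = 0}) := by
  have hOm : Submodule.span ℤ ((({1} : Finset ℤ) : Finset ℤ) : Set ℤ) = ⊤ := by
    rw [Finset.coe_singleton]
    exact Ideal.span_singleton_one
  obtain ⟨t, ht, X3, hX3, hcount⟩ := digits ({1} : Finset ℤ) hOm X2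
  set D : ℕ := d + 1 + ∑ f ∈ X3, ∑ i, degreeOf i f with hDdef
  have hD : 1 ≤ D := by omega
  have hX : ∀ f ∈ X3, ∀ a ∈ f.support, ∀ i, a i ≤ D := by
    intro f hf a ha i
    have h1 := monomial_le_degreeOf i ha
    have h2 : degreeOf i f ≤ ∑ i, degreeOf i f :=
      Finset.single_le_sum (f := fun i => degreeOf i f) (fun _ _ => Nat.zero_le _) (mem_univ i)
    have h3 : ∑ i, degreeOf i f ≤ ∑ f ∈ X3, ∑ i, degreeOf i f :=
      Finset.single_le_sum (f := fun f => ∑ i, degreeOf i f) (fun _ _ => Nat.zero_le _) hf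
    omega
  set e := Fintype.equivFin (TT (σ ⊕ t) D ⊕ Rh (σ ⊕ t) D X3) with he
  refine ⟨_, Nat.card (Rh (σ ⊕ t) D X3) - 1, Nat.card (TT (σ ⊕ t) D), rename e (FF hD X3),
    Fintype.card_pos_iff.2 ⟨Sum.inr (Sum.inl ())⟩, ?_,
    (totalDegree_rename_le _ _).trans (FF_deg hD X3), ?_, FF_smooth hD X3 e, ?_⟩
  · -- the monomials `x_0^k`, `k ≤ D`
    have h1 : Nat.card (Fin (D + 1)) ≤ Nat.card (TT (σ ⊕ t) D) := by
      apply Nat.card_le_card_of_injective (fun k : Fin (D + 1) =>
        (⟨Finsupp.single (Sum.inl i0) k, mem_TT.2 (fun j => by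
          by_cases h : (Sum.inl i0 : σ ⊕ t) = j
          · subst h; simp; omega
          · rw [Finsupp.single_eq_of_ne (Ne.symm h)]; omega)⟩ : TT (σ ⊕ t) D))
      intro k k' hkk
      have h2 := congrArg Subtype.val hkk
      have h3 := DFunLike.congr_fun h2 (Sum.inl i0)
      simp only [Finsupp.single_eq_same] at h3
      exact Fin.ext h3
    rw [Nat.card_eq_fintype_card, Fintype.card_fin] at h1
    omega
  · intro m
    have h := FF_good_rename hD X3 hX3 e m
    rcases h with h | h | h | h | h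
    · exact Or.inl h
    · exact Or.inr (Or.inl h)
    · exact Or.inr (Or.inr h)
    · exact Or.inr (Or.inl (Finset.mem_singleton.1 h))
    · refine Or.inr (Or.inr ?_)
      have := Finset.mem_singleton.1 h
      rw [← this, neg_neg]
  intro κ _ _
  rw [FF_count (Int.castRingHom κ) hD X3 hX e, hcount]

end Pool.Agent.V8H32.CV
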