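import Pool.Agent.V8H32.CV.Defs
import Pool.Agent.V8H35.CV.Hom
import Pool.Agent.V8H25.CV.Ind
import Pool.Agent.V8H32.CU.Main

/-! # Regrouping the Euler products according to the prime of `ℚ` -/

set_option autoImplicit false

namespace Pool.Agent.V8H32.CV
open Finset NumberField IsDedekindDomain
open Pool.Agent.V8H25.CF
open Pool.Agent.V8H25.CV
open Pool.Agent.V8H32.CF (nv lf wpart LW Bdd)
open Pool.Agent.V8H32.CU
open Pool.Agent.V8H35.CV
open scoped Classical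

variable {K : Type} [Field K] [NumberField K]

/-- the divisor over `ℚ` -/
noncomputable def cQ (c : HeightOneSpectrum (𝓞 K) → ℂ →₀ ℤ) (p : HeightOneSpectrum (𝓞 ℚ)) : ℂ →₀ ℤ :=
  letI := Fintype.ofFinite {v : HeightOneSpectrum (𝓞 K) // dn v = p}
  ∑ v : {v : HeightOneSpectrum (𝓞 K) // dn v = p}, ind (fd v.1) (c v.1)

lemma cQ_eq (c : HeightOneSpectrum (𝓞 K) → ℂ →₀ ℤ) (p : HeightOneSpectrum (𝓞 ℚ))
    [inst : Fintype {v : HeightOneSpectrum (𝓞 K) // dn v = p}] :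
    cQ c p = ∑ v : {v : HeightOneSpectrum (𝓞 K) // dn v = p}, ind (fd v.1) (c v.1) := by
  have h : Fintype.ofFinite {v : HeightOneSpectrum (𝓞 K) // dn v = p} = inst := Subsingleton.elim _ _
  unfold cQ
  rw [h]

theorem cQ_bdd {S' : Finset (HeightOneSpectrum (𝓞 ℚ))} {c : HeightOneSpectrum (𝓞 K) → ℂ →₀ ℤ} {B : ℕ}
    (hB : ∀ v, dn v ∉ S' → (c v).sum (fun _ m => m.natAbs) ≤ B) : Bdd S' (cQ c) := by
  refine ⟨Module.finrank ℚ K * (Module.finrank ℚ K * B), fun p hp => ?_⟩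
  let _ := Fintype.ofFinite {v : HeightOneSpectrum (𝓞 K) // dn v = p}
  unfold cQ
  refine (sum_nat_le univ _).trans ?_
  have h1 : ∀ v ∈ (univ : Finset {v : HeightOneSpectrum (𝓞 K) // dn v = p}),
      (ind (fd v.1) (c v.1)).sum (fun _ m => m.natAbs) ≤ Module.finrank ℚ K * B := by
    intro v _
    refine (natAbs_ind (fd_pos v.1) _).trans (Nat.mul_le_mul (fd_le v.1) (hB v.1 ?_))
    rw [v.2]; exact hp
  refine (Finset.sum_le_card_nsmul _ _ _ h1).trans ?_
  rw [smul_eq_mul]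
  refine Nat.mul_le_mul_right _ ?_
  have := card_fiber_le (K := K) p
  rw [Nat.card_eq_fintype_card] at this
  exact this

theorem wpart_support {Q : ℝ} {w : ℕ} {c : ℂ →₀ ℤ} {z : ℂ} (hz : z ∈ (wpart Q w c).support) :
    z ∈ c.support ∧ ‖z‖ = Q ^ ((w : ℝ) / 2) := by
  unfold wpart at hz
  rw [Finsupp.support_filter] at hz
  exact Finset.mem_filter.1 hz

theorem local_eq {c : HeightOneSpectrum (𝓞 K) → ℂ →₀ ℤ} {p : HeightOneSpectrum (𝓞 ℚ)}
    [Fintype {v : HeightOneSpectrum (𝓞 K) // dn v = p}]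
    (h0 : ∀ v, dn v = p → ∀ z ∈ (c v).support, z ≠ 0) {w : ℕ} {s : ℂ} (hs : (w : ℝ) / 2 + 1 < s.re) :
    lf (wpart (nv p) w (cQ c p)) ((nv p : ℂ) ^ (-s)) =
      ∏ v : {v : HeightOneSpectrum (𝓞 K) // dn v = p},
        lf (wpart (nv v.1) w (c v.1)) ((nv v.1 : ℂ) ^ (-s)) := by
  have e1 := cQ_eq c p
  have hp : (nv p : ℂ) ≠ 0 := nv_ne_zero p
  rw [e1, wpart_sum, (lf_sum _ _ _ ?_).1]
  · apply Finset.prod_congr rfl
    intro v _
    have e2 : nv v.1 = nv p ^ fd v.1 := by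
      have := nv_eq_pow v.1
      rw [v.2] at this
      exact this
    have e3 : ((nv p : ℂ) ^ (-s)) ^ fd v.1 = (nv v.1 : ℂ) ^ (-s) := by
      rw [e2, ← Complex.cpow_nat_mul, Nat.cast_pow]
      rw [← Complex.natCast_cpow_natCast_mul]
    rw [wpart_ind (fd_pos v.1), ← e2, lf_ind (fd_pos v.1), e3]
    intro z hz
    exact h0 v.1 v.2 z (wpart_support hz).1
  · intro v _ z hz
    exact one_sub_ne_zero_of_wpart hs z hz

theorem regroup {S' : Finset (HeightOneSpectrum (𝓞 ℚ))} {S : Finset (HeightOneSpectrum (𝓞 K))}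
    (hS : ∀ v, v ∈ S ↔ dn v ∈ S') {c : HeightOneSpectrum (𝓞 K) → ℂ →₀ ℤ} (hB : Bdd S c)
    (h0 : ∀ v, v ∉ S → ∀ z ∈ (c v).support, z ≠ 0) {w : ℕ} {s : ℂ} (hs : (w : ℝ) / 2 + 1 < s.re) :
    LW S' (cQ c) w s = LW S c w s := by
  have h1 := LW_multipliable hB hs
  have h2 := h1.hasProd
  set g : HeightOneSpectrum (𝓞 K) → ℂ := fun v => if v ∈ S then 1 else
      lf (wpart (nv v) w (c v)) ((nv v : ℂ) ^ (-s)) with hg
  have h3 : HasProd (g ∘ (Equiv.sigmaFiberEquiv (dn (K := K)))) (LW S c w s) :=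
    (Equiv.hasProd_iff _).2 h2
  let _ : ∀ p, Fintype {v : HeightOneSpectrum (𝓞 K) // dn v = p} := fun p => Fintype.ofFinite _
  have h4 : HasProd (fun p : HeightOneSpectrum (𝓞 ℚ) =>
      ∏ v : {v : HeightOneSpectrum (𝓞 K) // dn v = p}, g v.1) (LW S c w s) :=
    HasProd.sigma h3 (fun p => hasProd_fintype _)
  rw [← h4.tprod_eq]
  unfold LW
  apply tprod_congr
  intro p
  split_ifs with hp
  · symm
    apply Finset.prod_eq_one
    intro v _
    have h5 : v.1 ∈ S := (hS v.1).2 (by rw [v.2]; exact hp)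
    simp only [hg, if_pos h5]
  · rw [local_eq _ hs]
    · apply Finset.prod_congr rfl
      intro v _
      have h5 : v.1 ∉ S := fun h => hp (by have := (hS v.1).1 h; rw [v.2] at this; exact this)
      simp only [hg, if_neg h5]
    · intro v hv z hz
      have h5 : v ∉ S := fun h => hp (by have := (hS v).1 h; rw [hv] at this; exact this)
      exact h0 v h5 z hz

end Pool.Agent.V8H32.CV
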